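import Pool.Agent.FHT.Fin

/-!
Balanced permutations: an upper bound for the Füredi-Hajnal constant in terms of the cells.
-/

namespace Pool.Agent.Results.MP_f36a55_co.Balanced

open FHT

/-- If the permutation matrix of `σ`, of size `k ≤ m q`, has at most `w` ones in each square cell of side `q`, then
every `n × n` matrix which avoids it has at most `2 ^ (C m w (1 + log (m q))²) n` ones. -/
theorem result : ∃ C : ℝ, 0 < C ∧ ∀ (k q m w : ℕ) (σ : Equiv.Perm (Fin k)), 1 ≤ q → 1 ≤ m → 1 ≤ w →
    k ≤ m * q → Cells σ q w → ∀ n : ℕ,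
      (ex n σ : ℝ) ≤ (2 : ℝ) ^ (C * m * w * (1 + Real.log (m * q)) ^ 2) * n :=
  balanced

end Pool.Agent.Results.MP_f36a55_co.Balanced
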