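import Pool.Agent.FHD.Lim
import Pool.Agent.FHD.FinE

/-!
`M_d(k) = 2 ^ (k ^ (1/2 + o(1)))` in every fixed dimension `d ≥ 2`.
-/

set_option autoImplicit false

namespace Pool.Agent.Results.MP_f36a55_co.ExponentHalf

open Filter Topology Pool.Agent.Hhelper47.PermExt

/-- For every `d ≥ 2` there is a constant `C` such that `M_d(k) ≤ 2 ^ (√k exp (C √(log k log log k)))` for all `k ≥ 3`,
and `log log M_d(k) / log k` tends to `1/2` for `k → ∞`. -/
theorem result (d : ℕ) (hd : 2 ≤ d) :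
    (∃ C : ℝ, 0 < C ∧ ∀ k : ℕ, 3 ≤ k →
      M d k ≤ ENNReal.ofReal ((2 : ℝ) ^ (√k * Real.exp (C * √(Real.log k * Real.log (Real.log k)))))) ∧
    Tendsto (fun k : ℕ => Real.log (Real.log (M d k).toReal) / Real.log k) atTop (𝓝 (1 / 2)) :=
  ⟨FHD.M_leE d hd, FHD.lim d hd⟩

end Pool.Agent.Results.MP_f36a55_co.ExponentHalf
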