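import Pool.Agent.Hhelper47.PermExt.Main
import Pool.Agent.Hhelper47.PermExt.Mono

/-!
`M_d(k) ≥ 2 ^ (c √k)` in every dimension `d ≥ 2`.
-/

set_option autoImplicit false

namespace Pool.Agent.Results.MP_f36a55_co.SqrtLower

open Pool.Agent.Hhelper47.PermExt

/-- For all `d ≥ 2` and `k ≥ 2` there is a `d`-dimensional `k × ⋯ × k` permutation matrix `P`
with `f(n, P, d) ≥ 2 ^ (√k / 36) * n ^ (d - 1)` for all `n ≥ 2 ^ √k`; in particular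
`M_d(k) ≥ 2 ^ (√k / 36)`. Moreover `M_d(k) ≤ M_{d+1}(k)`. -/
theorem result (d k : ℕ) (hd : 2 ≤ d) (hk : 2 ≤ k) :
    (∃ P : Finset (Fin d → Fin k), IsPerm P ∧ ∀ n : ℕ, (2:ℝ) ^ √(k:ℝ) ≤ n →
      (2:ℝ) ^ (√(k:ℝ) / 36) * (n:ℝ) ^ (d - 1) ≤ f n P) ∧
    ENNReal.ofReal ((2:ℝ) ^ (√(k:ℝ) / 36)) ≤ M d k ∧
    M d k ≤ M (d + 1) k :=
  ⟨main d k hd hk, le_M d k hd hk, M_mono (by omega) k⟩

end Pool.Agent.Results.MP_f36a55_co.SqrtLower
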