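import Pool.Agent.FHT.Fin

/-!
The Füredi-Hajnal constant of almost every permutation of size `k` is `2 ^ (k ^ (1/2 + o(1)))`.
-/

namespace Pool.Agent.Results.MP_f36a55_co.TypicalExponent

open FHT Finset

open Classical in
/-- For all but at most `k! / (2 k)` of the permutations `σ` of size `k ≥ k₀`: every `n × n` matrix which avoids
`σ` has at most `2 ^ (C √k (log k)³) n` ones, and for `n ≥ 2 ^ √k` some such matrix has at least
`2 ^ (c √(k / log k)) n` ones. -/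
theorem result : ∃ c C : ℝ, 0 < c ∧ 0 < C ∧ ∃ k₀ : ℕ, ∀ k : ℕ, k₀ ≤ k →
    2 * k * (univ.filter fun σ : Equiv.Perm (Fin k) =>
      ¬((∀ n : ℕ, (ex n σ : ℝ) ≤ (2 : ℝ) ^ (C * √(k : ℝ) * Real.log k ^ 3) * n) ∧
        ∀ n : ℕ, (2 : ℝ) ^ √(k : ℝ) ≤ n →
          (2 : ℝ) ^ (c * √((k : ℝ) / Real.log k)) * n ≤ ex n σ)).card ≤ k.factorial :=
  typical

end Pool.Agent.Results.MP_f36a55_co.TypicalExponent
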